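import Pool.Agent.N933.KM.GibB

/-!
# KM/GIB (helper933 for project KM of helper483): from the Gibbs measures to the level sets
-/

set_option autoImplicit false

namespace Pool.Agent.N933.KM

open MeasureTheory Set Filter Topology
open scoped ENNReal InnerProductSpace
open Pool.Agent.R754.KG (E un sl Rv)
open Pool.Agent.R755.KF (CB)
open Pool.Agent.Y506.PV (CcW ind LCn)
open Pool.Agent.Y506.RG (EW VW Adm)
open Pool.Agent.N483.KM (LW gw gM BW LV S_LWC S_BWC S_BWG S_SECE S_WSP S_GIB)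

/-- the choice of the dimension -/
theorem ev_M (c : ℝ) : ∀ᶠ M : ℕ in atTop, 0 < 1 - c / M ∧
    Real.exp (-c) / 2 ≤ (1 - c / M) ^ M := by
  have h1 : Tendsto (fun M : ℕ => 1 - c / (M : ℝ)) atTop (𝓝 1) := by
    have := (tendsto_const_div_atTop_nhds_zero_nat c).const_sub 1
    simpa using this
  have h2 : Tendsto (fun M : ℕ => (1 - c / (M : ℝ)) ^ M) atTop (𝓝 (Real.exp (-c))) := by
    have := Real.tendsto_one_add_div_pow_exp (-c)
    refine this.congr fun M => ?_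
    congr 1
    ring
  have h3 : Real.exp (-c) / 2 < Real.exp (-c) := by
    have := Real.exp_pos (-c)
    linarith
  filter_upwards [h1.eventually (lt_mem_nhds one_pos), h2.eventually (lt_mem_nhds h3)] with M a b
  exact ⟨a, b.le⟩

/-- powers -/
theorem pow_bd (M : ℕ) (hM : 1 ≤ M) (X : ℝ) (hX : 0 ≤ 1 - X / M) :
    (1 - X / M) ^ M ≤ Real.exp (-X) := by
  have hMr : (0 : ℝ) < M := by exact_mod_cast hM
  have h1 : 1 - X / M ≤ Real.exp (-(X / M)) := by
    have := Real.add_one_le_exp (-(X / M))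
    linarith
  calc (1 - X / M) ^ M ≤ Real.exp (-(X / M)) ^ M := pow_le_pow_left₀ hX h1 M
    _ = _ := by
      rw [← Real.exp_nat_mul]
      congr 1
      field_simp

section rv

variable {r n q N M : ℕ} (ψ : (E n × E q) ≃ₗ[ℝ] E N) (φ1 : E (n + M) ≃ₗ[ℝ] E n × E M)
  (φ2 : E (q + r) ≃ₗ[ℝ] E q × E r) {S : Fin r → E N → ℝ} {l : Fin r → ℝ} (a : E q)

theorem KB_Rv {c : NNReal}
    (hc : Measure.map φ1 (volume : Measure (E (n + M))) = c • (volume : Measure (E n × E M)))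
    (τ : E (q + r)) : Rv (KB (M := M) ψ φ1 φ2 S l a) τ =
    c * ((volume (LV (fun j z => S j (ψ z)) (fun j => (φ2 τ).2 j) (φ2 τ).1)).toReal *
      max (hG M l a (φ2 τ).1 (φ2 τ).2) 0 ^ M) := by
  unfold Rv
  rw [KB_sl, meas_pre φ1 hc, Measure.volume_eq_prod, Measure.prod_prod, cub_vol,
    ENNReal.toReal_mul, ENNReal.toReal_mul, ENNReal.toReal_pow]
  rw [ENNReal.toReal_ofReal']
  rfl

theorem KB_large (hM : 1 ≤ M) (e : Fin r → ℝ)
    (hfin : volume (LV (fun j z => S j (ψ z)) e 0) ≠ ⊤)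
    (hs : ∀ (s : Fin r → ℝ) (u : E q), volume (LV (fun j z => S j (ψ z)) s u) ≤
      ENNReal.ofReal (2 * Real.exp (∑ j, l j * (s j - e j) + ⟪a, u⟫_ℝ)) *
      volume (LV (fun j z => S j (ψ z)) e 0))
    (h1 : 0 < 1 - (∑ j, l j * e j) / M)
    (h2 : Real.exp (-∑ j, l j * e j) / 2 ≤ (1 - (∑ j, l j * e j) / M) ^ M)
    (τ : E (q + r)) : 1 / 4 * Rv (KB (M := M) ψ φ1 φ2 S l a) τ ≤
      Rv (KB (M := M) ψ φ1 φ2 S l a) (φ2.symm (0, WithLp.toLp 2 e)) := by
  obtain ⟨c, hc0, hc⟩ := vol_pre φ1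
  rw [KB_Rv ψ φ1 φ2 a hc, KB_Rv ψ φ1 φ2 a hc, LinearEquiv.apply_symm_apply]
  set u := (φ2 τ).1
  set t := (φ2 τ).2
  have h3 : hG M l a (0 : E q) (WithLp.toLp 2 e) = 1 - (∑ j, l j * e j) / M := by
    simp [hG, lf]
  rw [h3, max_eq_left h1.le]
  set v := (volume (LV (fun j z => S j (ψ z)) e 0)).toReal with hv
  have hv0 : 0 ≤ v := ENNReal.toReal_nonneg
  have h4 : (volume (LV (fun j z => S j (ψ z)) (fun j => t j) u)).toReal ≤
      2 * Real.exp (∑ j, l j * (t j - e j) + ⟪a, u⟫_ℝ) * v := by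
    have h5 := ENNReal.toReal_mono (ENNReal.mul_ne_top ENNReal.ofReal_ne_top hfin)
      (hs (fun j => t j) u)
    rw [ENNReal.toReal_mul, ENNReal.toReal_ofReal (by positivity)] at h5
    exact h5
  set X := lf l a u t with hX
  have h5 : ∑ j, l j * (t j - e j) + ⟪a, u⟫_ℝ = X - ∑ j, l j * e j := by
    rw [hX]
    unfold lf
    simp only [mul_sub, Finset.sum_sub_distrib]
    ring
  rw [h5] at h4
  have h6 : max (hG M l a u t) 0 ^ M ≤ Real.exp (-X) := by
    rcases le_total 0 (hG M l a u t) with h | h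
    · rw [max_eq_left h]
      exact pow_bd M hM X h
    · rw [max_eq_right h, zero_pow (by omega)]
      exact (Real.exp_pos _).le
  have h7 : (volume (LV (fun j z => S j (ψ z)) (fun j => t j) u)).toReal *
      max (hG M l a u t) 0 ^ M ≤ 4 * (v * (1 - (∑ j, l j * e j) / M) ^ M) := by
    calc (volume (LV (fun j z => S j (ψ z)) (fun j => t j) u)).toReal * max (hG M l a u t) 0 ^ M
        ≤ (2 * Real.exp (X - ∑ j, l j * e j) * v) * Real.exp (-X) :=
          mul_le_mul h4 h6 (by positivity) (by positivity)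
      _ = 4 * (v * (Real.exp (-∑ j, l j * e j) / 2)) := by
          have : Real.exp (X - ∑ j, l j * e j) * Real.exp (-X) =
              Real.exp (-∑ j, l j * e j) := by
            rw [← Real.exp_add]
            congr 1
            ring
          linear_combination 2 * v * this
      _ ≤ _ := by gcongr
  have hc1 : (0 : ℝ) ≤ c := c.coe_nonneg
  have h8 := mul_le_mul_of_nonneg_left h7 hc1
  show 1 / 4 * (c * _) ≤ c * (v * _)
  linarith

end rv

/-- W12: from the Gibbs measures to the level sets -/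
theorem t_GIB (h0 : S_LWC) (h1 : S_BWC) (h2 : S_BWG) (h3 : Pool.Agent.R755.KF.S_LIFT)
    (h4 : S_SECE) (h5 : S_WSP) : S_GIB := by
  intro r q δ hδ
  obtain ⟨δ1, hδ1, H4⟩ := h4 (q + r) (1 / 4) (by norm_num)
  obtain ⟨δ2, hδ2, H3⟩ := h3 r δ1 hδ1
  obtain ⟨δ3, hδ3, H1⟩ := h1 δ2 hδ2
  refine ⟨δ3, hδ3, fun κ' hκ' => ?_⟩
  obtain ⟨κB, hκB, H1⟩ := H1 κ' hκ'
  obtain ⟨κL, hκL, H3⟩ := H3 κB hκB
  obtain ⟨κ, hκ, H4⟩ := H4 κL δ hκL hδ
  refine ⟨κ, hκ, ?_⟩
  intro n N ψ S e hn hSc hS0 hSb hx hGG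
  obtain ⟨x0, hx0⟩ := hx
  have hbd : ∀ s : Fin r → ℝ, Bornology.IsBounded {z : E n × E q | ∀ j, S j (ψ z) ≤ s j} := by
    intro s
    have h6 : {z : E n × E q | ∀ j, S j (ψ z) ≤ s j} = ψ.symm '' {z | ∀ j, S j z ≤ s j} := by
      ext z
      constructor
      · intro hz
        exact ⟨ψ z, hz, by simp⟩
      · rintro ⟨w, hw, rfl⟩
        intro j
        simpa using hw j
    rw [h6]
    have h8 : IsCompact (closure {z : E N | ∀ j, S j z ≤ s j}) := (hSb s).isCompact_closure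
    exact (h8.image (psis_cont ψ)).isBounded.subset (image_mono subset_closure)
  obtain ⟨l, a, hl, hs⟩ := h5 r n q (fun j z => S j (ψ z)) e hn
    (fun j => by simpa [Function.comp_def] using (hSc j).comp_linearMap ψ.toLinearMap)
    (fun j z => hS0 j _) hbd ⟨x0, hx0⟩
  have hA := hGG l a hl
  have hLW : LW (gw ψ S l a) := gw_LW ψ a h0 hSc hl hA.1
  obtain ⟨M, hM, hCB, hcc, hg1, hg2⟩ : ∃ M : ℕ, 1 ≤ M ∧ CB (BW (gw ψ S l a) M) ∧
      (∀ (m : ℕ) (e : (E N × E M) ≃ₗ[ℝ] E m), CcW κB δ2 (ind (e '' BW (gw ψ S l a) M))) ∧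
      0 < 1 - (∑ j, l j * e j) / M ∧
      Real.exp (-∑ j, l j * e j) / 2 ≤ (1 - (∑ j, l j * e j) / M) ^ M :=
    ((eventually_ge_atTop 1).and ((h2 N _ hLW).and ((H1 N _ hLW hA.2).and
      (ev_M (∑ j, l j * e j))))).exists.imp fun M h => ⟨h.1, h.2.1.1, h.2.2.1, h.2.2.2⟩
  have hfin : N = n + q := by
    have := ψ.finrank_eq
    simpa using this.symm
  let φ1 : E (n + M) ≃ₗ[ℝ] E n × E M := LinearEquiv.ofFinrankEq _ _ (by simp)
  let φ2 : E (q + r) ≃ₗ[ℝ] E q × E r := LinearEquiv.ofFinrankEq _ _ (by simp)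
  let em : (E N × E M) ≃ₗ[ℝ] E (N + M) := LinearEquiv.ofFinrankEq _ _ (by simp)
  let e1 : (E (n + M) × E (q + r)) ≃ₗ[ℝ] E (N + M + r) := LinearEquiv.ofFinrankEq _ _
    (by simp [hfin]; omega)
  let K0 : Set (E (n + M) × E (q + r)) := KB (M := M) ψ φ1 φ2 S l a
  have hg3 : hG M l a (0 : E q) (WithLp.toLp 2 e) = 1 - (∑ j, l j * e j) / M := by
    simp [hG, lf]
  have hint : (interior K0).Nonempty := KB_int ψ φ1 φ2 a hSc x0 0 (WithLp.toLp 2 e) hx0
    (by rw [hg3]; exact hg1)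
  have hK0 : CB K0 := KB_CB ψ φ1 φ2 a hSc hS0 hl hM hCB.comp hint
  let A : E (N + M + r) →ₗ[ℝ] E (N + M) :=
    em.toLinearMap ∘ₗ Pj ψ φ1 φ2 ∘ₗ e1.symm.toLinearMap
  have hAs : Function.Surjective A :=
    em.surjective.comp ((Pj_surj ψ φ1 φ2).comp e1.symm.surjective)
  have hint1 : (interior (e1 '' K0)).Nonempty := by
    have h6 : e1.toContinuousLinearEquiv.toHomeomorph '' interior K0 =
        interior (e1.toContinuousLinearEquiv.toHomeomorph '' K0) := Homeomorph.image_interior _ _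
    have h7 : (e1 '' K0) = e1.toContinuousLinearEquiv.toHomeomorph '' K0 := rfl
    rw [h7, ← h6]
    exact hint.image _
  have hAim : A '' (e1 '' K0) = em '' BW (gw ψ S l a) M := by
    rw [← KB_image ψ φ1 φ2 a hl hM, image_image, image_image]
    refine image_congr fun z _ => ?_
    simp [A]
  have key : CcW κL δ1 (ind (e1 '' K0)) := by
    refine H3 (N + M) (e1 '' K0) A hAs
      (hK0.comp.image e1.toLinearMap.continuous_of_finiteDimensional)
      (hK0.conv.linear_image e1.toLinearMap) hint1 ?_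
    rw [hAim]
    exact hcc _ em
  have hfin0 : volume (LV (fun j z => S j (ψ z)) e 0) ≠ ⊤ := by
    have h6 : Bornology.IsBounded (LV (fun j z => S j (ψ z)) e (0 : E q)) := by
      have h7 : LV (fun j z => S j (ψ z)) e (0 : E q) ⊆
          Prod.fst '' {z : E n × E q | ∀ j, S j (ψ z) ≤ e j} := fun x hx => ⟨(x, 0), hx, rfl⟩
      exact ((hbd e).image_fst).subset h7
    exact h6.measure_lt_top.ne
  have key2 := H4 (n + M) (N + M + r) e1 K0 (φ2.symm (0, WithLp.toLp 2 e)) hK0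
    (fun τ => KB_large ψ φ1 φ2 a hM e hfin0 hs hg1 hg2 τ) key
  have hsl : sl K0 (φ2.symm (0, WithLp.toLp 2 e)) =
      φ1 ⁻¹' ({x | ∀ j, S j (ψ (x, 0)) ≤ e j} ×ˢ cub M (1 - (∑ j, l j * e j) / M)) := by
    show sl (KB (M := M) ψ φ1 φ2 S l a) (φ2.symm (0, WithLp.toLp 2 e)) = _
    rw [KB_sl, LinearEquiv.apply_symm_apply, ← hg3]
  rw [hsl] at key2
  refine cc_drop φ1 rfl _ _ ?_ ?_ ?_ key2
  · have h6 : cub M (1 - (∑ j, l j * e j) / M) =
        ⋂ i, {y : E M | |y i| ≤ (1 - (∑ j, l j * e j) / M) / 2} := by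
      ext y
      simp [cub]
    rw [h6]
    exact (isClosed_iInter fun i => isClosed_le
      ((EuclideanSpace.proj i : E M →L[ℝ] ℝ).continuous.abs) continuous_const).measurableSet
  · rw [cub_vol]
    exact pow_ne_zero _ (ENNReal.ofReal_pos.2 hg1).ne'
  · rw [cub_vol]
    exact ENNReal.pow_ne_top ENNReal.ofReal_ne_top

end Pool.Agent.N933.KM
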