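import Pool.Agent.N483.KM.StmS
import Pool.Agent.N603.KM.OSUP
import Pool.Agent.Y98.EC.Hull

/-!
# KM/GSUP (helper933 for project KM of helper483): the supporting functional for sections of cones
-/

set_option autoImplicit false

namespace Pool.Agent.N933.KM

open MeasureTheory Set Filter Topology
open scoped ENNReal InnerProductSpace Pointwise
open Pool.Agent.R754.KG (E)
open Pool.Agent.N483.KM (PC Pf S_GSUP)
open Pool.Agent.N603.KM (PLset)

section gen

variable {n q N : ℕ} (e : (E n × E q) ≃ₗ[ℝ] E N) (C : Set (E N))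

/-- the fibre over `b` -/
def fib (b : E q) : Set (E n) := {x | e (x, b) ∈ C}

theorem e_cont : Continuous fun z : E n × E q => e z :=
  LinearMap.continuous_of_finiteDimensional (e : (E n × E q) →ₗ[ℝ] E N)

theorem e_comb (a b : ℝ) (x y : E n) (u v : E q) :
    e (a • x + b • y, a • u + b • v) = a • e (x, u) + b • e (y, v) := by
  rw [← map_smul, ← map_smul, ← map_add]; rfl

theorem e_add (x y : E n) (u v : E q) : e (x + y, u + v) = e (x, u) + e (y, v) := by
  rw [← map_add]; rfl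

theorem e_smul (a : ℝ) (x : E n) (u : E q) : e (a • x, a • u) = a • e (x, u) := by
  rw [← map_smul]; rfl

variable {e C}

theorem C_add (hC : PC C) {z w : E N} (hz : z ∈ C) (hw : w ∈ C) : z + w ∈ C := by
  have h := hC.cone 2 (by norm_num) _ (hC.conv hz hw (by norm_num : (0:ℝ) ≤ 1 / 2)
    (by norm_num : (0:ℝ) ≤ 1 / 2) (by norm_num))
  rw [smul_add, smul_smul, smul_smul] at h
  norm_num at h
  exact h

theorem fib_closed (hC : PC C) (b : E q) : IsClosed (fib e C b) :=
  hC.closed.preimage ((e_cont e).comp (continuous_id.prodMk continuous_const))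

theorem fib_smul (hC : PC C) (b : E q) {t : ℝ} (ht : 0 < t) :
    fib e C (t • b) = t • fib e C b := by
  ext x
  constructor
  · intro hx
    refine ⟨t⁻¹ • x, ?_, by simp [smul_smul, mul_inv_cancel₀ ht.ne']⟩
    have h := hC.cone t⁻¹ (inv_nonneg.2 ht.le) _ hx
    rw [← e_smul, smul_smul, inv_mul_cancel₀ ht.ne', one_smul] at h
    exact h
  · rintro ⟨y, hy, rfl⟩
    have h := hC.cone t ht.le _ hy
    rw [← e_smul] at h
    exact h

theorem vol_smul (hC : PC C) (b : E q) {t : ℝ} (ht : 0 < t) :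
    volume (fib e C (t • b)) = ENNReal.ofReal (t ^ n) * volume (fib e C b) := by
  rw [fib_smul hC b ht, Measure.addHaar_smul, finrank_euclideanSpace_fin,
    abs_of_pos (pow_pos ht n)]

theorem vol_log (hC : PC C) {t : ℝ} (ht0 : 0 < t) (ht1 : t < 1) (b b' : E q) :
    volume (fib e C b) ^ (1 - t) * volume (fib e C b') ^ t ≤
      volume (fib e C ((1 - t) • b + t • b')) := by
  refine PLset volume t ht0 ht1 _ _ _ (fib_closed hC _).measurableSet
    (fib_closed hC _).measurableSet (fib_closed hC _).measurableSet ?_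
  intro x hx y hy
  show e ((1 - t) • x + t • y, (1 - t) • b + t • b') ∈ C
  rw [e_comb]
  exact hC.conv hx hy (by linarith) ht0.le (by ring)

theorem U_conv (hC : PC C) {c : ℝ≥0∞} (h0 : c ≠ 0) (ht : c ≠ ⊤) :
    Convex ℝ {b : E q | c ≤ volume (fib e C b)} := by
  intro s hs s' hs' a b ha hb hab
  rcases ha.eq_or_lt with h | ha
  · rw [← h, zero_add] at hab
    rw [← h, hab]; simpa using hs'
  rcases hb.eq_or_lt with h | hb
  · rw [← h, add_zero] at hab
    rw [← h, hab]; simpa using hs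
  have ha' : a = 1 - b := by linarith
  rw [ha']
  have hb1 : b < 1 := by linarith
  have key := vol_log (e := e) hC hb hb1 s s'
  refine le_trans ?_ key
  calc c = c ^ (1 - b) * c ^ b := by
        rw [← ENNReal.rpow_add _ _ h0 ht]; simp
    _ ≤ _ := by
        have h1 : c ≤ volume (fib e C s) := hs
        have h2 : c ≤ volume (fib e C s') := hs'
        exact mul_le_mul' (ENNReal.rpow_le_rpow h1 (by linarith)) (ENNReal.rpow_le_rpow h2 hb.le)

/-- the recession cone of a bounded fibre is trivial -/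
theorem rec_zero (hC : PC C) {b0 : E q} (hb : Bornology.IsBounded (fib e C b0)) {x0 : E n}
    (hx0 : e (x0, b0) ∈ C) {x : E n} (hx : e (x, 0) ∈ C) : x = 0 := by
  by_contra hne
  obtain ⟨R, hR⟩ := hb.exists_norm_le
  have hpos : 0 < ‖x‖ := norm_pos_iff.2 hne
  obtain ⟨s, hs⟩ : ∃ s : ℝ, s = (R + ‖x0‖ + 1) / ‖x‖ := ⟨_, rfl⟩
  have hR0 : 0 ≤ R := (norm_nonneg _).trans (hR x0 hx0)
  have hs0 : 0 ≤ s := by rw [hs]; positivity
  have h1 : x0 + s • x ∈ fib e C b0 := by
    show e (x0 + s • x, b0) ∈ C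
    have h2 : e (x0 + s • x, b0) = e (x0, b0) + s • e (x, 0) := by
      rw [← e_smul, ← e_add, smul_zero, add_zero]
    rw [h2]
    exact C_add hC hx0 (hC.cone s hs0 _ hx)
  have h3 := hR _ h1
  have h4 : ‖s • x‖ ≤ ‖x0 + s • x‖ + ‖x0‖ := by
    have := norm_sub_le (x0 + s • x) x0
    simpa using this
  rw [norm_smul, Real.norm_of_nonneg hs0] at h4
  have h5 : s * ‖x‖ = R + ‖x0‖ + 1 := by rw [hs]; field_simp
  linarith

/-- a functional which is positive on the cone and depends on the parameters only -/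
theorem exists_eta (hC : PC C) {b0 : E q} (hb : Bornology.IsBounded (fib e C b0)) {x0 : E n}
    (hx0 : e (x0, b0) ∈ C) :
    ∃ η : E q →L[ℝ] ℝ, ∀ (x : E n) (b : E q), e (x, b) ∈ C → e (x, b) ≠ 0 → 0 < η b := by
  obtain ⟨π, hπ⟩ : ∃ π : E N →ₗ[ℝ] E q, ∀ z, π z = (e.symm z).2 :=
    ⟨(LinearMap.snd ℝ (E n) (E q)).comp (e.symm : E N →ₗ[ℝ] E n × E q), fun z => rfl⟩
  have hπe : ∀ x b, π (e (x, b)) = b := fun x b => by rw [hπ, e.symm_apply_apply]
  have hπc : Continuous π := π.continuous_of_finiteDimensional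
  obtain ⟨P, hP⟩ : ∃ P : Set (E q), P = π '' (C ∩ Metric.sphere 0 1) := ⟨_, rfl⟩
  have hPc : IsCompact P := by
    rw [hP]
    exact ((isCompact_sphere 0 1).inter_left hC.closed).image hπc
  obtain ⟨Q, hQ⟩ : ∃ Q : Set (E q), Q = {b | ∃ z ∈ C, z ≠ 0 ∧ π z = b} := ⟨_, rfl⟩
  have hQconv : Convex ℝ Q := by
    rw [hQ]
    rintro b ⟨z, hz, hz0, rfl⟩ b' ⟨z', hz', hz0', rfl⟩ a c ha hc hac
    refine ⟨a • z + c • z', hC.conv hz hz' ha hc hac, ?_, by simp⟩
    intro h0
    rcases ha.eq_or_lt with h | ha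
    · rw [← h, zero_add] at hac
      rw [← h, hac, zero_smul, zero_add, one_smul] at h0
      exact hz0' h0
    · refine hz0 (hC.pt z hz ?_)
      have h1 : -z = (a⁻¹ * c) • z' := by
        have h2 : a • z = -(c • z') := eq_neg_of_add_eq_zero_left h0
        have h3 : z = a⁻¹ • (a • z) := by rw [smul_smul, inv_mul_cancel₀ ha.ne', one_smul]
        rw [h3, h2, smul_neg, neg_neg, smul_smul]
      rw [h1]
      exact hC.cone _ (by positivity) _ hz'
  have hPQ : P ⊆ Q := by
    rw [hP, hQ]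
    rintro _ ⟨z, ⟨hz, hz1⟩, rfl⟩
    refine ⟨z, hz, ?_, rfl⟩
    rintro rfl
    simp at hz1
  have h0 : (0 : E q) ∉ convexHull ℝ P := by
    intro h
    have h1 : (0 : E q) ∈ Q := convexHull_min hPQ hQconv h
    rw [hQ] at h1
    obtain ⟨z, hz, hz0, hz1⟩ := h1
    obtain ⟨⟨x, b⟩, rfl⟩ := e.surjective z
    rw [hπe] at hz1
    subst hz1
    have h2 := rec_zero hC hb hx0 hz
    subst h2
    exact hz0 (map_zero e)
  obtain ⟨f, u, hf0, hfu⟩ := geometric_hahn_banach_point_closed (convex_convexHull ℝ P)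
    (Pool.Agent.Y98.EC.isCompact_hull hPc).isClosed h0
  rw [map_zero] at hf0
  refine ⟨f, fun x b hz hz0 => ?_⟩
  have hn : 0 < ‖e (x, b)‖ := norm_pos_iff.2 hz0
  have h1 : ‖e (x, b)‖⁻¹ • b ∈ convexHull ℝ P := by
    apply subset_convexHull ℝ P
    rw [hP]
    refine ⟨‖e (x, b)‖⁻¹ • e (x, b), ⟨hC.cone _ (inv_nonneg.2 hn.le) _ hz, ?_⟩, ?_⟩
    · rw [mem_sphere_zero_iff_norm, norm_smul, norm_inv, norm_norm, inv_mul_cancel₀ hn.ne']
    · rw [map_smul, hπe]
  have h2 := hfu _ h1
  rw [map_smul, smul_eq_mul] at h2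
  have h3 : 0 < ‖e (x, b)‖⁻¹ * f b := hf0.trans h2
  exact (mul_pos_iff_of_pos_left (inv_pos.2 hn)).1 h3

/-- the supporting functional of the volume -/
theorem exists_zeta (hn : 1 ≤ n) (hC : PC C) {b0 : E q} (hb : Bornology.IsBounded (fib e C b0))
    {x0 : E n} (hx0 : e (x0, b0) ∈ interior C) :
    ∃ ζ : E q →L[ℝ] ℝ, 0 < ζ b0 ∧ (∀ (x : E n) (b : E q), e (x, b) ∈ C → 0 ≤ ζ b) ∧
      ∀ b : E q, ζ b < ζ b0 → volume (fib e C b) < volume (fib e C b0) := by
  have hx0C : e (x0, b0) ∈ C := interior_subset hx0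
  have hfin : volume (fib e C b0) ≠ ⊤ := hb.measure_lt_top.ne
  have hpos : volume (fib e C b0) ≠ 0 := by
    have ho : IsOpen {x : E n | e (x, b0) ∈ interior C} :=
      isOpen_interior.preimage ((e_cont e).comp (continuous_id.prodMk continuous_const))
    have h1 : 0 < volume {x : E n | e (x, b0) ∈ interior C} := ho.measure_pos volume ⟨x0, hx0⟩
    exact (h1.trans_le (measure_mono fun x (hx : e (x, b0) ∈ interior C) => (interior_subset hx : e (x, b0) ∈ C))).ne'
  obtain ⟨U, hU⟩ : ∃ U : Set (E q), U = {b | volume (fib e C b0) ≤ volume (fib e C b)} := ⟨_, rfl⟩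
  have hUc : Convex ℝ U := by rw [hU]; exact U_conv hC hpos hfin
  have hadd : ∀ (x : E n) (b : E q), e (x, b) ∈ C → b0 + b ∈ U := by
    intro x b hxb
    rw [hU]
    show volume (fib e C b0) ≤ volume (fib e C (b0 + b))
    have h1 : (fun y => x + y) '' fib e C b0 ⊆ fib e C (b0 + b) := by
      rintro _ ⟨y, hy, rfl⟩
      show e (x + y, b0 + b) ∈ C
      rw [add_comm x y, e_add]
      exact C_add hC hy hxb
    refine le_trans (le_of_eq ?_) (measure_mono h1)
    rw [image_add_left]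
    exact (measure_preimage_add volume _ _).symm
  have h2b : (2 : ℝ) • b0 ∈ interior U := by
    rw [mem_interior_iff_mem_nhds]
    have ho : IsOpen {b : E q | e (x0, b - b0) ∈ interior C} :=
      isOpen_interior.preimage ((e_cont e).comp (continuous_const.prodMk
        (continuous_id.sub continuous_const)))
    have hm : (2 : ℝ) • b0 ∈ {b : E q | e (x0, b - b0) ∈ interior C} := by
      show e (x0, (2 : ℝ) • b0 - b0) ∈ interior C
      have : (2 : ℝ) • b0 - b0 = b0 := by rw [two_smul]; abel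
      rw [this]
      exact hx0
    filter_upwards [ho.mem_nhds hm] with b hbm
    have h1 := hadd x0 (b - b0) (interior_subset hbm)
    rwa [add_sub_cancel] at h1
  have hbi : b0 ∉ interior U := by
    intro h
    have h1 : Tendsto (fun k : ℕ => (1 - 1 / ((k : ℝ) + 2)) • b0) atTop (𝓝 b0) := by
      have h2 : Tendsto (fun k : ℕ => (1 - 1 / ((k : ℝ) + 2) : ℝ)) atTop (𝓝 (1 - 0)) := by
        refine tendsto_const_nhds.sub ?_
        have h3 := (tendsto_one_div_add_atTop_nhds_zero_nat (𝕜 := ℝ)).comp (tendsto_add_atTop_nat 1)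
        refine h3.congr fun k => ?_
        simp only [Function.comp_apply]
        push_cast
        ring
      have h4 := h2.smul_const b0
      rwa [sub_zero, one_smul] at h4
    obtain ⟨k, hk⟩ := (h1.eventually (isOpen_interior.mem_nhds h)).exists
    have h5 := interior_subset hk
    rw [hU] at h5
    have h6 : volume (fib e C b0) ≤ volume (fib e C ((1 - 1 / ((k : ℝ) + 2)) • b0)) := h5
    have hk0 : (0 : ℝ) < (k : ℝ) + 2 := by positivity
    have hk1 : 1 / ((k : ℝ) + 2) < 1 := by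
      rw [div_lt_one hk0]
      have : (0 : ℝ) ≤ k := Nat.cast_nonneg k
      linarith
    have hk2 : 0 < 1 / ((k : ℝ) + 2) := by positivity
    rw [vol_smul hC b0 (by linarith : (0 : ℝ) < 1 - 1 / ((k : ℝ) + 2))] at h6
    have h7 : ENNReal.ofReal ((1 - 1 / ((k : ℝ) + 2)) ^ n) < 1 := by
      rw [← ENNReal.ofReal_one]
      refine (ENNReal.ofReal_lt_ofReal_iff one_pos).2 ?_
      exact pow_lt_one₀ (by linarith) (by linarith) (by omega)
    have h8 : ENNReal.ofReal ((1 - 1 / ((k : ℝ) + 2)) ^ n) * volume (fib e C b0) <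
        1 * volume (fib e C b0) := ENNReal.mul_lt_mul_left hpos hfin h7
    rw [one_mul] at h8
    exact absurd h6 (not_le.2 h8)
  obtain ⟨f, hf⟩ := geometric_hahn_banach_open_point hUc.interior isOpen_interior hbi
  have hfU : ∀ b ∈ U, f b ≤ f b0 := by
    intro b hbU
    have h1 : b ∈ closure (interior U) := by
      rw [hUc.closure_interior_eq_closure_of_nonempty_interior ⟨_, h2b⟩]
      exact subset_closure hbU
    have h2 : closure (interior U) ⊆ {w | f w ≤ f b0} :=
      closure_minimal (fun a ha => (hf a ha).le) (isClosed_le f.continuous continuous_const)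
    exact h2 h1
  refine ⟨-f, ?_, ?_, ?_⟩
  · have h1 := hf _ h2b
    rw [map_smul, smul_eq_mul] at h1
    show 0 < -f b0
    linarith
  · intro x b hxb
    have h1 := hfU _ (hadd x b hxb)
    rw [map_add] at h1
    show 0 ≤ -f b
    linarith
  · intro b hlt
    by_contra hcon
    have h1 : b ∈ U := by rw [hU]; exact not_lt.1 hcon
    have h2 := hfU b h1
    have h3 : -f b < -f b0 := hlt
    linarith

end gen

/-- **KM/GSUP** -/
theorem t_GSUP : S_GSUP := by
  intro n q N e C b0 hn hC hbd hint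
  obtain ⟨x0, hx0⟩ := hint
  have hb : Bornology.IsBounded (fib e C b0) := hbd
  have hx0C : e (x0, b0) ∈ C := interior_subset hx0
  obtain ⟨η, hη⟩ := exists_eta hC hb hx0C
  obtain ⟨ζ, hζ0, hζ1, hζ2⟩ := exists_zeta hn hC hb hx0
  have hη0 : ∀ (x : E n) (b : E q), e (x, b) ∈ C → 0 ≤ η b := by
    intro x b hxb
    by_cases h : e (x, b) = 0
    · have h1 : ((x, b) : E n × E q) = 0 := by
        apply e.injective; rw [h, map_zero]
      have h2 : b = 0 := congrArg Prod.snd h1
      rw [h2, map_zero]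
    · exact (hη x b hxb h).le
  obtain ⟨M, hM1, hM2⟩ : ∃ M : ℝ, 1 < M ∧ M ^ n ≤ 2 := by
    refine ⟨(2 : ℝ) ^ ((n : ℝ)⁻¹), Real.one_lt_rpow (by norm_num) ?_, ?_⟩
    · have : (0 : ℝ) < n := by exact_mod_cast hn
      positivity
    · rw [Real.rpow_inv_natCast_pow (by norm_num) (by omega)]
  have hηb := hη0 x0 b0 hx0C
  obtain ⟨ε, hε⟩ : ∃ ε : ℝ, ε = (M - 1) * ζ b0 / (2 * (η b0 + 1)) := ⟨_, rfl⟩
  have hε0 : 0 < ε := by
    rw [hε]
    have : 0 < M - 1 := by linarith
    positivity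
  have hεM : ζ b0 + ε * η b0 < M * ζ b0 := by
    have h1 : ε * (2 * (η b0 + 1)) = (M - 1) * ζ b0 := by
      rw [hε]; field_simp
    have h2 : 0 < (M - 1) * ζ b0 := mul_pos (by linarith) hζ0
    nlinarith
  obtain ⟨f, hf⟩ : ∃ f : E N →ₗ[ℝ] ℝ, ∀ z, f z = ζ (e.symm z).2 + ε * η (e.symm z).2 :=
    ⟨((ζ + ε • η : E q →L[ℝ] ℝ) : E q →ₗ[ℝ] ℝ).comp
      ((LinearMap.snd ℝ (E n) (E q)).comp (e.symm : E N →ₗ[ℝ] E n × E q)), fun z => rfl⟩
  have hfe : ∀ x b, f (e (x, b)) = ζ b + ε * η b := fun x b => by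
    rw [hf, e.symm_apply_apply]
  refine ⟨f, ζ b0 + ε * η b0, ?_, ?_, fun x _ => (hfe x b0).le, ?_⟩
  · intro z hz hz0
    obtain ⟨⟨x, b⟩, rfl⟩ := e.surjective z
    rw [hfe]
    have h1 := hζ1 x b hz
    have h2 := mul_pos hε0 (hη x b hz hz0)
    linarith
  · have := mul_nonneg hε0.le hηb
    linarith
  · intro b
    show volume {x : E n | e (x, b) ∈ C ∧ f (e (x, b)) ≤ ζ b0 + ε * η b0} ≤
      2 * volume (fib e C b0)
    rcases {x : E n | e (x, b) ∈ C ∧ f (e (x, b)) ≤ ζ b0 + ε * η b0}.eq_empty_or_nonempty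
      with h | ⟨x, hx1, hx2⟩
    · rw [h]; simp
    · have hM0 : 0 < M := by linarith
      have h1 := hη0 x b hx1
      rw [hfe] at hx2
      have h2 : ζ (M⁻¹ • b) < ζ b0 := by
        rw [map_smul, smul_eq_mul, inv_mul_lt_iff₀ hM0]
        have := mul_nonneg hε0.le h1
        linarith
      have h3 := hζ2 _ h2
      have h4 : volume (fib e C b) = ENNReal.ofReal (M ^ n) * volume (fib e C (M⁻¹ • b)) := by
        rw [← vol_smul hC _ hM0, smul_smul, mul_inv_cancel₀ hM0.ne', one_smul]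
      have h5 : ENNReal.ofReal (M ^ n) ≤ 2 := by
        have h6 : ENNReal.ofReal (2 : ℝ) = 2 := by
          rw [ENNReal.ofReal_ofNat]
        rw [← h6]
        exact ENNReal.ofReal_le_ofReal hM2
      refine le_trans (measure_mono (fun y hy => hy.1) : _ ≤ volume (fib e C b)) ?_
      rw [h4]
      exact mul_le_mul' h5 h3.le

end Pool.Agent.N933.KM
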