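import Pool.Agent.N483.KM.StmW
import Pool.Agent.R755.KF.Defs3

/-!
# KM/GIB (helper933 for project KM of helper483): from the Gibbs measures to the level sets
-/

set_option autoImplicit false

namespace Pool.Agent.N933.KM

open MeasureTheory Set Filter Topology
open scoped ENNReal InnerProductSpace
open Pool.Agent.R754.KG (E un sl Rv)
open Pool.Agent.R755.KF (CB)
open Pool.Agent.Y506.PV (CcW ind LCn)
open Pool.Agent.Y506.RG (EW VW Adm)
open Pool.Agent.N483.KM (LW gw gM BW LV S_LWC S_BWC S_BWG S_SECE S_WSP S_GIB)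

/-- the Lebesgue measure in other coordinates -/
theorem vol_pre {n M N : ℕ} (φ : E N ≃ₗ[ℝ] E n × E M) : ∃ c : NNReal, c ≠ 0 ∧
    Measure.map φ (volume : Measure (E N)) = c • (volume : Measure (E n × E M)) := by
  let e' : E N ≃L[ℝ] (E n × E M) := φ.toContinuousLinearEquiv
  have hme : MeasurableEmbedding e' := e'.toHomeomorph.measurableEmbedding
  have hv0 : (volume : Measure (E n × E M)).IsAddHaarMeasure :=
    inferInstanceAs (Measure.prod (volume : Measure (E n)) (volume : Measure (E M))).IsAddHaarMeasure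
  have hh : (Measure.map e' (volume : Measure (E N))).IsAddHaarMeasure :=
    e'.isAddHaarMeasure_map volume
  obtain ⟨c, hc⟩ : ∃ c : NNReal, Measure.map e' (volume : Measure (E N)) =
      c • (volume : Measure (E n × E M)) := ⟨_, Measure.isAddLeftInvariant_eq_smul _ _⟩
  refine ⟨c, ?_, hc⟩
  rintro rfl
  rw [zero_smul] at hc
  have h1 : (Measure.map e' (volume : Measure (E N))) univ = 0 := by rw [hc]; rfl
  rw [hme.map_apply, preimage_univ] at h1
  exact (isOpen_univ.measure_pos (volume : Measure (E N)) univ_nonempty).ne' h1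

theorem int_pre {n M N : ℕ} (φ : E N ≃ₗ[ℝ] E n × E M) {c : NNReal}
    (hc : Measure.map φ (volume : Measure (E N)) = c • (volume : Measure (E n × E M)))
    (F : E n × E M → ℝ) : ∫ v, F (φ v) = c * ∫ z, F z := by
  have hme : MeasurableEmbedding φ :=
    (φ.toContinuousLinearEquiv : E N ≃L[ℝ] (E n × E M)).toHomeomorph.measurableEmbedding
  rw [← hme.integral_map, hc, integral_smul_nnreal_measure]
  rfl

theorem meas_pre {n M N : ℕ} (φ : E N ≃ₗ[ℝ] E n × E M) {c : NNReal}
    (hc : Measure.map φ (volume : Measure (E N)) = c • (volume : Measure (E n × E M)))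
    (A : Set (E n × E M)) : volume (φ ⁻¹' A) = c * volume A := by
  have hme : MeasurableEmbedding φ :=
    (φ.toContinuousLinearEquiv : E N ≃L[ℝ] (E n × E M)).toHomeomorph.measurableEmbedding
  rw [← hme.map_apply, hc]
  rfl

/-- the cube of side `g` -/
def cub (M : ℕ) (g : ℝ) : Set (E M) := {y | ∀ i, |y i| ≤ g / 2}

theorem cub_vol (M : ℕ) (g : ℝ) : volume (cub M g) = ENNReal.ofReal g ^ M := by
  have h1 : cub M g = (WithLp.ofLp : E M → (Fin M → ℝ)) ⁻¹'
      (Icc (fun _ => -(g / 2)) (fun _ => g / 2)) := by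
    ext y
    simp only [cub, mem_ofPred_eq, mem_preimage, mem_Icc, Pi.le_def, abs_le]
    exact forall_and
  rw [h1, (PiLp.volume_preserving_ofLp (Fin M)).measure_preimage
    measurableSet_Icc.nullMeasurableSet, Real.volume_Icc_pi]
  simp only [Finset.prod_const, Finset.card_univ, Fintype.card_fin]
  congr 2
  ring

/-- concentration for products with a set implies concentration for the factor -/
theorem cc_drop {n M N : ℕ} (φ : E N ≃ₗ[ℝ] E n × E M) (hN : N = n + M) (K : Set (E n))
    (C : Set (E M)) (hC : MeasurableSet C) (hC0 : volume C ≠ 0)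
    (hC1 : volume C ≠ ⊤)
    {κ δ : ℝ} (h : CcW κ δ (ind (φ ⁻¹' (K ×ˢ C)))) : CcW κ δ (ind K) := by
  obtain ⟨c, hc0, hc⟩ := vol_pre φ
  have hcr : (c : ℝ) ≠ 0 := by exact_mod_cast hc0
  have hCr : (∫ y, C.indicator (fun _ => (1 : ℝ)) y) ≠ 0 := by
    rw [integral_indicator hC]
    simp only [integral_const, smul_eq_mul, mul_one, measureReal_def, Measure.restrict_apply,
      MeasurableSet.univ, univ_inter]
    exact (ENNReal.toReal_pos hC0 hC1).ne'
  have hI : ∀ f : E n → ℝ, ∫ v, f (φ v).1 * ind (φ ⁻¹' (K ×ˢ C)) v =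
      c * ((∫ x, f x * ind K x) * ∫ y, C.indicator (fun _ => (1 : ℝ)) y) := by
    intro f
    have h1 : ∀ v, f (φ v).1 * ind (φ ⁻¹' (K ×ˢ C)) v =
        (fun z : E n × E M => (f z.1 * ind K z.1) * C.indicator (fun _ => (1 : ℝ)) z.2) (φ v) := by
      intro v
      by_cases h2 : (φ v).1 ∈ K <;> by_cases h3 : (φ v).2 ∈ C <;>
        simp [ind, indicator, h2, h3, mem_prod]
    refine (integral_congr_ae (Eventually.of_forall h1)).trans ((int_pre φ hc
      (fun z : E n × E M => (f z.1 * ind K z.1) * C.indicator (fun _ => (1 : ℝ)) z.2)).trans ?_)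
    congr 1
    exact integral_prod_mul (fun x => f x * ind K x) (C.indicator fun _ => (1 : ℝ))
  have hE : ∀ f : E n → ℝ, EW (ind (φ ⁻¹' (K ×ˢ C))) (fun v => f (φ v).1) = EW (ind K) f := by
    intro f
    unfold EW
    rw [hI f]
    have h2 := hI fun _ => 1
    simp only [one_mul] at h2
    rw [h2]
    rw [mul_div_mul_left _ _ hcr, mul_div_mul_right _ _ hCr]
  have hV : ∀ f : E n → ℝ, VW (ind (φ ⁻¹' (K ×ˢ C))) (fun v => f (φ v).1) = VW (ind K) f := by
    intro f
    unfold VW
    rw [hE f, hE fun x => f x ^ 2]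
  intro k hk T s hs hT v hv hvb hd
  have h1 := h k (by omega) (T ∘ₗ LinearMap.fst ℝ (E n) (E M) ∘ₗ φ.toLinearMap) s hs
    (fun θ hθ => by
      have := hT θ hθ
      rw [← hV] at this
      exact this) v hv hvb hd
  rw [← hV]
  exact h1

end Pool.Agent.N933.KM
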