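import Pool.Agent.N933.KM.GibA

/-!
# KM/GIB (helper933 for project KM of helper483): the body over the level sets
-/

set_option autoImplicit false

namespace Pool.Agent.N933.KM

open MeasureTheory Set Filter Topology
open scoped ENNReal InnerProductSpace
open Pool.Agent.R754.KG (E un sl Rv)
open Pool.Agent.R755.KF (CB)
open Pool.Agent.Y506.PV (CcW ind LCn)
open Pool.Agent.Y506.RG (EW VW Adm)
open Pool.Agent.N483.KM (LW gw gM BW LV S_LWC S_BWC S_BWG S_SECE S_WSP S_GIB)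

section body

variable {r n q N M : ℕ} (ψ : (E n × E q) ≃ₗ[ℝ] E N) (φ1 : E (n + M) ≃ₗ[ℝ] E n × E M)
  (φ2 : E (q + r) ≃ₗ[ℝ] E q × E r) (S : Fin r → E N → ℝ) (l : Fin r → ℝ) (a : E q)

/-- the linear functional -/
noncomputable def lf (l : Fin r → ℝ) (a : E q) (u : E q) (t : E r) : ℝ :=
  ∑ j, l j * t j + ⟪a, u⟫_ℝ

theorem lf_comb (x y : ℝ) (u v : E q) (s t : E r) :
    lf l a (x • u + y • v) (x • s + y • t) = x * lf l a u s + y * lf l a v t := by
  unfold lf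
  have h1 : ∀ j, l j * (x • s + y • t) j = x * (l j * s j) + y * (l j * t j) := by
    intro j
    simp only [PiLp.add_apply, PiLp.smul_apply, smul_eq_mul]
    ring
  simp only [h1, Finset.sum_add_distrib, ← Finset.mul_sum, inner_add_right, inner_smul_right]
  ring

theorem lf_cont : Continuous fun z : E q × E r => lf l a z.1 z.2 := by
  unfold lf
  fun_prop

/-- the height -/
noncomputable def hG (M : ℕ) (l : Fin r → ℝ) (a : E q) (u : E q) (t : E r) : ℝ :=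
  1 - lf l a u t / M

/-- the body -/
def KB : Set (E (n + M) × E (q + r)) :=
  {p | (∀ j, S j (ψ ((φ1 p.1).1, (φ2 p.2).1)) ≤ (φ2 p.2).2 j) ∧
    ∀ i, |(φ1 p.1).2 i| ≤ hG M l a (φ2 p.2).1 (φ2 p.2).2 / 2}

/-- the projection -/
noncomputable def Pj : (E (n + M) × E (q + r)) →ₗ[ℝ] E N × E M :=
  LinearMap.prod
    (ψ.toLinearMap ∘ₗ (LinearMap.prodMap (LinearMap.fst ℝ (E n) (E M) ∘ₗ φ1.toLinearMap)
      (LinearMap.fst ℝ (E q) (E r) ∘ₗ φ2.toLinearMap)))
    (LinearMap.snd ℝ (E n) (E M) ∘ₗ φ1.toLinearMap ∘ₗ LinearMap.fst ℝ (E (n + M)) (E (q + r)))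

theorem Pj_apply (p : E (n + M) × E (q + r)) :
    Pj ψ φ1 φ2 p = (ψ ((φ1 p.1).1, (φ2 p.2).1), (φ1 p.1).2) := rfl

theorem Pj_surj : Function.Surjective (Pj ψ φ1 φ2) := by
  rintro ⟨z, y⟩
  refine ⟨(φ1.symm ((ψ.symm z).1, y), φ2.symm ((ψ.symm z).2, 0)), ?_⟩
  rw [Pj_apply]
  simp

/-- the energy -/
noncomputable def Ph (z : E N) : ℝ := ∑ j, l j * S j z + ⟪a, (ψ.symm z).2⟫_ℝ

theorem gw_eq (z : E N) : gw ψ S l a z = Real.exp (-Ph ψ S l a z) := rfl

theorem gM_eq (M : ℕ) (z : E N) : gM (gw ψ S l a) M z = max (1 - Ph ψ S l a z / M) 0 := by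
  unfold gM
  rw [gw_eq, if_pos (Real.exp_pos _), Real.log_exp]
  congr 1
  ring

variable {S} {l}

theorem Ph_conv (hS : ∀ j, ConvexOn ℝ univ (S j)) (hl : ∀ j, 0 < l j) (x y : E N) (b c : ℝ)
    (hb : 0 ≤ b) (hc : 0 ≤ c) (hbc : b + c = 1) :
    Ph ψ S l a (b • x + c • y) ≤ b * Ph ψ S l a x + c * Ph ψ S l a y := by
  unfold Ph
  have h1 : ∑ j, l j * S j (b • x + c • y) ≤ ∑ j, (b * (l j * S j x) + c * (l j * S j y)) := by
    refine Finset.sum_le_sum fun j _ => ?_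
    have h2 := (hS j).2 (mem_univ x) (mem_univ y) hb hc hbc
    simp only [smul_eq_mul] at h2
    nlinarith [mul_le_mul_of_nonneg_left h2 (hl j).le]
  rw [Finset.sum_add_distrib, ← Finset.mul_sum, ← Finset.mul_sum] at h1
  have h3 : ⟪a, (ψ.symm (b • x + c • y)).2⟫_ℝ = b * ⟪a, (ψ.symm x).2⟫_ℝ +
      c * ⟪a, (ψ.symm y).2⟫_ℝ := by
    rw [map_add, map_smul, map_smul, Prod.snd_add, Prod.smul_snd, Prod.smul_snd, inner_add_right,
      inner_smul_right, inner_smul_right]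
  rw [h3]
  linarith

theorem psi_cont : Continuous fun z : E n × E q => ψ z :=
  LinearMap.continuous_of_finiteDimensional (ψ : (E n × E q) →ₗ[ℝ] E N)

theorem psis_cont : Continuous fun z : E N => ψ.symm z :=
  LinearMap.continuous_of_finiteDimensional (ψ.symm : E N →ₗ[ℝ] (E n × E q))

theorem S_cont (hS : ∀ j, ConvexOn ℝ univ (S j)) (j : Fin r) : Continuous (S j) :=
  continuousOn_univ.1 ((hS j).continuousOn isOpen_univ)

theorem Ph_cont (hS : ∀ j, ConvexOn ℝ univ (S j)) : Continuous (Ph ψ S l a) := by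
  unfold Ph
  refine Continuous.add ?_ ?_
  · exact continuous_finsetSum _ fun j _ => continuous_const.mul (S_cont hS j)
  · exact continuous_const.inner ((psis_cont ψ).snd)

theorem gw_LW (h0 : S_LWC) (hS : ∀ j, ConvexOn ℝ univ (S j)) (hl : ∀ j, 0 < l j)
    (h : Adm (gw ψ S l a)) : LW (gw ψ S l a) := by
  refine h0 N _ h ?_ ?_
  · intro x y t ht0 ht1
    rw [gw_eq, gw_eq, gw_eq, ← Real.exp_mul, ← Real.exp_mul, ← Real.exp_add]
    refine Real.exp_le_exp.2 ?_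
    have := Ph_conv ψ a hS hl x y (1 - t) t (by linarith) ht0.le (by ring)
    linarith
  · have : Continuous (gw ψ S l a) := Real.continuous_exp.comp (Ph_cont ψ a hS).neg
    exact this.upperSemicontinuous

/-- the image of the body -/
theorem KB_image (hl : ∀ j, 0 < l j) (hM : 1 ≤ M) :
    Pj ψ φ1 φ2 '' KB (M := M) ψ φ1 φ2 S l a = BW (gw ψ S l a) M := by
  have hMr : (0 : ℝ) < M := by exact_mod_cast hM
  ext ⟨z, y⟩
  constructor
  · rintro ⟨p, ⟨hp1, hp2⟩, hp⟩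
    rw [Pj_apply] at hp
    obtain ⟨rfl, rfl⟩ := Prod.mk.inj hp
    have h1 : Ph ψ S l a (ψ ((φ1 p.1).1, (φ2 p.2).1)) ≤ lf l a (φ2 p.2).1 (φ2 p.2).2 := by
      unfold Ph lf
      rw [LinearEquiv.symm_apply_apply]
      gcongr with j _
      · exact (hl j).le
      · exact hp1 j
    have h2 : 0 ≤ hG M l a (φ2 p.2).1 (φ2 p.2).2 := by
      have := (abs_nonneg _).trans (hp2 ⟨0, hM⟩)
      linarith
    have h3 : hG M l a (φ2 p.2).1 (φ2 p.2).2 ≤ 1 - Ph ψ S l a (ψ ((φ1 p.1).1, (φ2 p.2).1)) / M := by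
      unfold hG
      have := div_le_div_of_nonneg_right h1 hMr.le
      linarith
    refine ⟨?_, fun i => ?_⟩
    · show Real.exp (-M) ≤ gw ψ S l a _
      rw [gw_eq]
      refine Real.exp_le_exp.2 ?_
      have h4 : Ph ψ S l a (ψ ((φ1 p.1).1, (φ2 p.2).1)) / M ≤ 1 := by linarith
      rw [div_le_one hMr] at h4
      linarith
    · show |(φ1 p.1).2 i| ≤ gM (gw ψ S l a) M _ / 2
      rw [gM_eq]
      refine (hp2 i).trans ?_
      have := le_max_left (1 - Ph ψ S l a (ψ ((φ1 p.1).1, (φ2 p.2).1)) / M) 0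
      linarith
  · rintro ⟨h1, h2⟩
    simp only at h1 h2
    rw [gw_eq, Real.exp_le_exp] at h1
    have h3 : 0 ≤ 1 - Ph ψ S l a z / M := by
      have : Ph ψ S l a z / M ≤ 1 := by
        rw [div_le_one hMr]
        linarith
      linarith
    refine ⟨(φ1.symm ((ψ.symm z).1, y), φ2.symm ((ψ.symm z).2, WithLp.toLp 2 fun j => S j z)),
      ⟨?_, ?_⟩, ?_⟩
    · intro j
      simp
    · intro i
      have h4 := h2 i
      rw [gM_eq, max_eq_left h3] at h4
      simpa [hG, lf, Ph] using h4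
    · rw [Pj_apply]
      simp

theorem KB_conv (hS : ∀ j, ConvexOn ℝ univ (S j)) : Convex ℝ (KB (M := M) ψ φ1 φ2 S l a) := by
  rintro p ⟨hp1, hp2⟩ p' ⟨hp1', hp2'⟩ b c hb hc hbc
  have e1 : φ1 (b • p + c • p').1 = b • φ1 p.1 + c • φ1 p'.1 := by
    rw [Prod.fst_add, Prod.smul_fst, Prod.smul_fst, map_add, map_smul, map_smul]
  have e2 : φ2 (b • p + c • p').2 = b • φ2 p.2 + c • φ2 p'.2 := by
    rw [Prod.snd_add, Prod.smul_snd, Prod.smul_snd, map_add, map_smul, map_smul]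
  refine ⟨fun j => ?_, fun i => ?_⟩
  · rw [e1, e2]
    have e3 : ((b • φ1 p.1 + c • φ1 p'.1).1, (b • φ2 p.2 + c • φ2 p'.2).1) =
        b • ((φ1 p.1).1, (φ2 p.2).1) + c • ((φ1 p'.1).1, (φ2 p'.2).1) := by
      ext <;> simp
    rw [e3, map_add, map_smul, map_smul]
    have h2 := (hS j).2 (mem_univ (ψ ((φ1 p.1).1, (φ2 p.2).1)))
      (mem_univ (ψ ((φ1 p'.1).1, (φ2 p'.2).1))) hb hc hbc
    simp only [smul_eq_mul] at h2
    refine h2.trans ?_
    have h3 := mul_le_mul_of_nonneg_left (hp1 j) hb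
    have h4 := mul_le_mul_of_nonneg_left (hp1' j) hc
    simp only [Prod.snd_add, Prod.smul_snd, PiLp.add_apply, PiLp.smul_apply, smul_eq_mul]
    linarith
  · rw [e1, e2]
    have h1 : hG M l a (b • φ2 p.2 + c • φ2 p'.2).1 (b • φ2 p.2 + c • φ2 p'.2).2 =
        b * hG M l a (φ2 p.2).1 (φ2 p.2).2 + c * hG M l a (φ2 p'.2).1 (φ2 p'.2).2 := by
      unfold hG
      rw [Prod.fst_add, Prod.snd_add, Prod.smul_fst, Prod.smul_fst, Prod.smul_snd, Prod.smul_snd,
        lf_comb]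
      have : (1 : ℝ) = b + c := hbc.symm
      rw [add_div, mul_div_assoc, mul_div_assoc]
      linear_combination this
    rw [h1]
    simp only [Prod.snd_add, Prod.smul_snd, PiLp.add_apply, PiLp.smul_apply, smul_eq_mul]
    have h3 := mul_le_mul_of_nonneg_left (hp2 i) hb
    have h4 := mul_le_mul_of_nonneg_left (hp2' i) hc
    calc |b * (φ1 p.1).2 i + c * (φ1 p'.1).2 i| ≤ |b * (φ1 p.1).2 i| + |c * (φ1 p'.1).2 i| :=
          abs_add_le _ _
      _ = b * |(φ1 p.1).2 i| + c * |(φ1 p'.1).2 i| := by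
          rw [abs_mul, abs_mul, abs_of_nonneg hb, abs_of_nonneg hc]
      _ ≤ _ := by linarith

theorem hG_cont : Continuous fun z : E q × E r => hG M l a z.1 z.2 := by
  unfold hG
  exact continuous_const.sub ((lf_cont l a).div_const _)

theorem p1_cont : Continuous fun p : E (n + M) × E (q + r) => φ1 p.1 :=
  (LinearMap.continuous_of_finiteDimensional (φ1 : E (n + M) →ₗ[ℝ] (E n × E M))).comp
    continuous_fst

theorem p2_cont : Continuous fun p : E (n + M) × E (q + r) => φ2 p.2 :=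
  (LinearMap.continuous_of_finiteDimensional (φ2 : E (q + r) →ₗ[ℝ] (E q × E r))).comp
    continuous_snd

theorem c1_cont (hS : ∀ j, ConvexOn ℝ univ (S j)) (j : Fin r) :
    Continuous fun p : E (n + M) × E (q + r) => S j (ψ ((φ1 p.1).1, (φ2 p.2).1)) :=
  (S_cont hS j).comp ((psi_cont ψ).comp ((p1_cont φ1).fst.prodMk (p2_cont φ2).fst))

theorem c2_cont (j : Fin r) : Continuous fun p : E (n + M) × E (q + r) => (φ2 p.2).2 j :=
  (EuclideanSpace.proj j : E r →L[ℝ] ℝ).continuous.comp (p2_cont φ2).snd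

theorem c3_cont (i : Fin M) : Continuous fun p : E (n + M) × E (q + r) => |(φ1 p.1).2 i| :=
  ((EuclideanSpace.proj i : E M →L[ℝ] ℝ).continuous.comp (p1_cont φ1).snd).abs

theorem c4_cont : Continuous fun p : E (n + M) × E (q + r) =>
    hG M l a (φ2 p.2).1 (φ2 p.2).2 / 2 :=
  ((hG_cont (M := M) (l := l) a).comp (p2_cont φ2)).div_const _

theorem KB_closed (hS : ∀ j, ConvexOn ℝ univ (S j)) : IsClosed (KB (M := M) ψ φ1 φ2 S l a) := by
  have h1 : KB (M := M) ψ φ1 φ2 S l a =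
      (⋂ j, {p | S j (ψ ((φ1 p.1).1, (φ2 p.2).1)) ≤ (φ2 p.2).2 j}) ∩
      ⋂ i, {p | |(φ1 p.1).2 i| ≤ hG M l a (φ2 p.2).1 (φ2 p.2).2 / 2} := by
    ext p
    simp [KB]
  rw [h1]
  exact (isClosed_iInter fun j => isClosed_le (c1_cont ψ φ1 φ2 hS j) (c2_cont φ2 j)).inter
    (isClosed_iInter fun i => isClosed_le (c3_cont φ1 i) (c4_cont φ2 a))

theorem KB_comp (hS : ∀ j, ConvexOn ℝ univ (S j)) (hS0 : ∀ j z, 0 ≤ S j z) (hl : ∀ j, 0 < l j)
    (hM : 1 ≤ M) (hB : IsCompact (BW (gw ψ S l a) M)) :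
    IsCompact (KB (M := M) ψ φ1 φ2 S l a) := by
  have hMr : (0 : ℝ) < M := by exact_mod_cast hM
  obtain ⟨C, hC⟩ := hB.exists_bound_of_continuousOn
    (f := fun z : E N × E M => ⟪a, (ψ.symm z.1).2⟫_ℝ)
    (continuous_const.inner ((psis_cont ψ).comp continuous_fst).snd).continuousOn
  let Q : Set (E r) := (WithLp.toLp 2 : (Fin r → ℝ) → E r) '' Icc (fun _ => (0 : ℝ))
    (fun j => (M + C) / l j)
  have hQ : IsCompact Q := isCompact_Icc.image (PiLp.continuous_toLp 2 _)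
  let R : (E N × E M) × E r → E (n + M) × E (q + r) := fun w =>
    (φ1.symm ((ψ.symm w.1.1).1, w.1.2), φ2.symm ((ψ.symm w.1.1).2, w.2))
  have hR : Continuous R := by
    have h1 : Continuous fun w : (E N × E M) × E r => ψ.symm w.1.1 :=
      (psis_cont ψ).comp (continuous_fst.fst)
    exact ((LinearMap.continuous_of_finiteDimensional (φ1.symm : (E n × E M) →ₗ[ℝ] E (n + M))).comp
      (h1.fst.prodMk continuous_fst.snd)).prodMk
      ((LinearMap.continuous_of_finiteDimensional (φ2.symm : (E q × E r) →ₗ[ℝ] E (q + r))).comp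
      (h1.snd.prodMk continuous_snd))
  refine ((hB.prod hQ).image hR).of_isClosed_subset (KB_closed ψ φ1 φ2 a hS) ?_
  intro p hp
  have hpB : Pj ψ φ1 φ2 p ∈ BW (gw ψ S l a) M := by
    rw [← KB_image ψ φ1 φ2 a hl hM]
    exact mem_image_of_mem _ hp
  have hb := hC _ hpB
  rw [Pj_apply] at hb hpB
  simp only [LinearEquiv.symm_apply_apply, Real.norm_eq_abs] at hb
  refine ⟨(Pj ψ φ1 φ2 p, (φ2 p.2).2), ⟨?_, ?_⟩, ?_⟩
  · exact hpB
  · refine ⟨fun j => (φ2 p.2).2 j, ⟨fun j => (hS0 j _).trans (hp.1 j), fun j => ?_⟩, rfl⟩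
    have h2 : 0 ≤ hG M l a (φ2 p.2).1 (φ2 p.2).2 := by
      have := (abs_nonneg _).trans (hp.2 ⟨0, hM⟩)
      linarith
    have h3 : lf l a (φ2 p.2).1 (φ2 p.2).2 ≤ M := by
      unfold hG at h2
      have : lf l a (φ2 p.2).1 (φ2 p.2).2 / M ≤ 1 := by linarith
      rwa [div_le_one hMr] at this
    have h4 : l j * (φ2 p.2).2 j ≤ ∑ j, l j * (φ2 p.2).2 j :=
      Finset.single_le_sum (f := fun j => l j * (φ2 p.2).2 j)
        (fun i _ => mul_nonneg (hl i).le ((hS0 i _).trans (hp.1 i))) (Finset.mem_univ j)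
    have h5 := (abs_le.1 hb).1
    unfold lf at h3
    show (φ2 p.2).2 j ≤ (M + C) / l j
    rw [le_div_iff₀ (hl j)]
    linarith
  · show R (Pj ψ φ1 φ2 p, (φ2 p.2).2) = p
    simp only [R, Pj_apply, LinearEquiv.symm_apply_apply, Prod.mk.eta]

theorem KB_int (hS : ∀ j, ConvexOn ℝ univ (S j)) (x : E n) (u : E q) (t : E r)
    (hx : ∀ j, S j (ψ (x, u)) < t j) (hg : 0 < hG M l a u t) :
    (interior (KB (M := M) ψ φ1 φ2 S l a)).Nonempty := by
  let U : Set (E (n + M) × E (q + r)) :=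
      (⋂ j, {p | S j (ψ ((φ1 p.1).1, (φ2 p.2).1)) < (φ2 p.2).2 j}) ∩
      ⋂ i, {p | |(φ1 p.1).2 i| < hG M l a (φ2 p.2).1 (φ2 p.2).2 / 2}
  have hU : IsOpen U :=
    (isOpen_iInter_of_finite fun j => isOpen_lt (c1_cont ψ φ1 φ2 hS j) (c2_cont φ2 j)).inter
    (isOpen_iInter_of_finite fun i => isOpen_lt (c3_cont φ1 i) (c4_cont φ2 a))
  have hUK : U ⊆ KB (M := M) ψ φ1 φ2 S l a := by
    rintro p ⟨h1, h2⟩
    rw [mem_iInter] at h1 h2
    exact ⟨fun j => (h1 j).le, fun i => (h2 i).le⟩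
  refine ⟨(φ1.symm (x, 0), φ2.symm (u, t)), interior_maximal hUK hU ⟨?_, ?_⟩⟩
  · rw [mem_iInter]
    intro j
    simpa using hx j
  · rw [mem_iInter]
    intro i
    simpa using hg

theorem KB_CB (hS : ∀ j, ConvexOn ℝ univ (S j)) (hS0 : ∀ j z, 0 ≤ S j z) (hl : ∀ j, 0 < l j)
    (hM : 1 ≤ M) (hB : IsCompact (BW (gw ψ S l a) M))
    (hint : (interior (KB (M := M) ψ φ1 φ2 S l a)).Nonempty) : CB (KB (M := M) ψ φ1 φ2 S l a) := by
  refine ⟨KB_conv ψ φ1 φ2 a hS, KB_comp ψ φ1 φ2 a hS hS0 hl hM hB, ?_⟩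
  have : (volume : Measure (E (n + M) × E (q + r))).IsAddHaarMeasure :=
    inferInstanceAs (Measure.prod (volume : Measure (E (n + M)))
      (volume : Measure (E (q + r)))).IsAddHaarMeasure
  exact (isOpen_interior.measure_pos _ hint).trans_le (measure_mono interior_subset)

/-- the fibres of the body -/
theorem KB_sl (τ : E (q + r)) : sl (KB (M := M) ψ φ1 φ2 S l a) τ =
    φ1 ⁻¹' ({x | ∀ j, S j (ψ (x, (φ2 τ).1)) ≤ (φ2 τ).2 j} ×ˢ
      cub M (hG M l a (φ2 τ).1 (φ2 τ).2)) := rfl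

end body

end Pool.Agent.N933.KM
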